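import Pool.Agent.X62.LC.Count

/-!
# Long cycles in random subgraphs of graphs with average degree `k`

For every sequence `p k < 1` there are graphs `G k` with average degree at least `k` such that the
probability that the random subgraph has a cycle of length at least `k + 1` tends to `0`.
-/

open Finset Filter Topology

namespace Pool.Agent.Results.MP_816dee_pr.ChainOfCliques

/-- The average degree `2 |E| / |V|`. -/
noncomputable def avgDegree {V : Type} [Fintype V] (G : SimpleGraph V) : ℝ :=
  2 * (G.edgeSet.ncard : ℝ) / Fintype.card V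

open Classical in
/-- The probability that the random spanning subgraph `G_p`, which keeps every edge of `G`
independently with probability `p`, has the property `A`: the sum over all sets `S` of edges of `G`
such that the graph with edge set `S` has the property. -/
noncomputable def prob {V : Type} [Fintype V] (G : SimpleGraph V) (p : ℝ)
    (A : SimpleGraph V → Prop) : ℝ :=
  ∑ S ∈ G.edgeFinset.powerset.filter
      (fun S : Finset (Sym2 V) => A (SimpleGraph.fromEdgeSet (S : Set (Sym2 V)))),
    p ^ S.card * (1 - p) ^ (G.edgeFinset.card - S.card)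

/-- `H` has a cycle of length at least `l`. -/
def HasCycleOfLengthAtLeast {V : Type} (l : ℕ) (H : SimpleGraph V) : Prop :=
  ∃ (v : V) (c : H.Walk v v), c.IsCycle ∧ l ≤ c.length

theorem prob_nonneg {V : Type} [Fintype V] (G : SimpleGraph V) (p : ℝ)
    (A : SimpleGraph V → Prop) (hp0 : 0 ≤ p) (hp1 : p ≤ 1) : 0 ≤ prob G p A := by
  unfold prob
  apply Finset.sum_nonneg
  intro S _
  have : 0 ≤ 1 - p := by linarith
  positivity

open Pool.Agent.X62 in
/-- one graph -/
theorem exists_graph (k : ℕ) (p ε : ℝ) (hp0 : 0 ≤ p) (hp1 : p < 1) (hε : 0 < ε) :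
    ∃ (n : ℕ) (G : SimpleGraph (Fin n)), 0 < n ∧ (k : ℝ) ≤ avgDegree G ∧
      (2 ≤ k → prob G p (HasCycleOfLengthAtLeast (k + 1)) ≤ ε) := by
  classical
  set d := k - 1 + (if k = 0 then 1 else if k = 1 then 1 else 0) with hdd
  have hd : 0 < d := by
    rw [hdd]; split_ifs <;> omega
  have hkd : k ≤ d + 1 := by
    rw [hdd]; split_ifs <;> omega
  have hkd' : 2 ≤ k → k = d + 1 := by
    intro h
    rw [hdd]; split_ifs <;> omega
  have hq : 0 ≤ (1 - p) ^ d := pow_nonneg (by linarith) _
  have hq' : 0 < (1 - p) ^ d := pow_pos (by linarith) _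
  have hq1 : (1 - p) ^ d ≤ 1 := pow_le_one₀ (by linarith) (by linarith)
  obtain ⟨L, hL⟩ := exists_pow_lt_of_lt_one (show 0 < ε / d by positivity)
    (show 1 - (1 - p) ^ d < 1 by linarith)
  have hL2 : (1 - (1 - p) ^ d) ^ (L + 1) < ε / d := by
    refine lt_of_le_of_lt ?_ hL
    exact pow_le_pow_of_le_one (by linarith) (by linarith) (Nat.le_succ L)
  refine ⟨d * (L + 1) * d + 2, LC.G d (L + 1), by omega, ?_, ?_⟩
  · have h1 := LC.card_edges (d := d) (L := L + 1) hd (Nat.succ_pos L)
    have h2 : (LC.G d (L + 1)).edgeSet.ncard = (LC.G d (L + 1)).edgeFinset.card := by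
      rw [← SimpleGraph.coe_edgeFinset, Set.ncard_coe_finset]
    unfold avgDegree
    rw [h2, Fintype.card_fin, le_div_iff₀ (by positivity)]
    have h3 : ((d + 1) * (d * (L + 1) * d + 2) : ℕ) ≤
        (2 * (LC.G d (L + 1)).edgeFinset.card : ℝ) := by exact_mod_cast h1
    refine le_trans ?_ h3
    have h4 : k * (d * (L + 1) * d + 2) ≤ (d + 1) * (d * (L + 1) * d + 2) :=
      Nat.mul_le_mul_right _ hkd
    exact_mod_cast h4
  · intro hk
    have hk' := hkd' hk
    have h1 := LC.prob_bound (d := d) (L := L + 1) hd (Nat.succ_pos L) p hp0 hp1.le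
      (fun S => HasCycleOfLengthAtLeast (k + 1) (SimpleGraph.fromEdgeSet
        (S : Set (Sym2 (Fin (d * (L + 1) * d + 2)))))) (by
        intro S hS
        obtain ⟨v, c, hc, hl⟩ := hS
        exact ⟨v, c, hc, by omega⟩)
    unfold prob
    refine le_trans (le_of_eq ?_) (le_trans h1 ?_)
    · congr!
    · have hd' : (0 : ℝ) < d := by exact_mod_cast hd
      have := mul_lt_mul_of_pos_left hL2 hd'
      rw [mul_div_cancel₀ _ hd'.ne'] at this
      exact this.le

/-- a sequence of graphs -/
theorem exists_seq (p : ℕ → ℝ) (hp : ∀ k, 0 ≤ p k ∧ p k < 1) :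
    ∃ (n : ℕ → ℕ) (G : ∀ k, SimpleGraph (Fin (n k))),
      (∀ k, 0 < n k ∧ (k : ℝ) ≤ avgDegree (G k)) ∧
      Tendsto (fun k => prob (G k) (p k) (HasCycleOfLengthAtLeast (k + 1))) atTop (𝓝 0) := by
  choose n G h1 h2 h3 using fun k : ℕ => exists_graph k (p k) (1 / ((k : ℝ) + 1)) (hp k).1 (hp k).2
    (by positivity)
  refine ⟨n, G, fun k => ⟨h1 k, h2 k⟩, ?_⟩
  apply squeeze_zero' (g := fun k : ℕ => 1 / ((k : ℝ) + 1))
  · exact Eventually.of_forall fun k => prob_nonneg _ _ _ (hp k).1 (hp k).2.le
  · filter_upwards [eventually_ge_atTop 2] with k hk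
    exact h3 k hk
  · exact tendsto_one_div_add_atTop_nhds_zero_nat

/-- **Theorem.** (1) For every sequence `p k` in `[0, 1)` there are graphs `G k` with average
degree at least `k` such that the probability that the random subgraph of `G k` with edge
probability `p k` has a cycle of length at least `k + 1` tends to `0`.
(2) In particular there are a function `ω` tending to infinity, edge probabilities `p k` with
`p k = (log k + log log k + ω k) / k` for all large `k`, and graphs `G k` with average degree at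
least `k` such that this probability tends to `0`. -/
theorem result :
    (∀ p : ℕ → ℝ, (∀ k, 0 ≤ p k ∧ p k < 1) →
      ∃ (n : ℕ → ℕ) (G : ∀ k, SimpleGraph (Fin (n k))),
        (∀ k, 0 < n k ∧ (k : ℝ) ≤ avgDegree (G k)) ∧
        Tendsto (fun k => prob (G k) (p k) (HasCycleOfLengthAtLeast (k + 1))) atTop (𝓝 0)) ∧
    ∃ ω : ℕ → ℝ, Tendsto ω atTop atTop ∧ ∃ p : ℕ → ℝ, (∀ k, 0 ≤ p k ∧ p k ≤ 1) ∧
      (∀ᶠ k : ℕ in atTop, p k = (Real.log k + Real.log (Real.log k) + ω k) / k) ∧
      ∃ (n : ℕ → ℕ) (G : ∀ k, SimpleGraph (Fin (n k))),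
        (∀ k, 0 < n k ∧ (k : ℝ) ≤ avgDegree (G k)) ∧
        Tendsto (fun k => prob (G k) (p k) (HasCycleOfLengthAtLeast (k + 1))) atTop (𝓝 0) := by
  refine ⟨exists_seq, fun k => Real.log k, ?_, ?_⟩
  · exact Real.tendsto_log_atTop.comp tendsto_natCast_atTop_atTop
  · classical
    set q : ℕ → ℝ := fun k => (Real.log k + Real.log (Real.log k) + Real.log k) / k with hq
    set p : ℕ → ℝ := fun k => if 0 ≤ q k ∧ q k < 1 then q k else 0 with hp
    have hp01 : ∀ k, 0 ≤ p k ∧ p k < 1 := by
      intro k
      simp only [hp]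
      split_ifs with h
      · exact h
      · norm_num
    refine ⟨p, fun k => ⟨(hp01 k).1, (hp01 k).2.le⟩, ?_, exists_seq p hp01⟩
    have hlim : Tendsto (fun k : ℕ => Real.log k / k) atTop (𝓝 0) := by
      have := Real.isLittleO_log_id_atTop.tendsto_div_nhds_zero
      exact this.comp tendsto_natCast_atTop_atTop
    have hev : ∀ᶠ k : ℕ in atTop, Real.log k / k < 1 / 3 :=
      hlim.eventually (gt_mem_nhds (by norm_num))
    filter_upwards [hev, eventually_ge_atTop 3] with k hk hk3
    have hk3' : (3 : ℝ) ≤ k := by exact_mod_cast hk3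
    have hk0 : (0 : ℝ) < k := by linarith
    have hlog : 1 ≤ Real.log k := by
      rw [Real.le_log_iff_exp_le hk0]
      have := Real.exp_one_lt_d9
      linarith
    have hll0 : 0 ≤ Real.log (Real.log k) := Real.log_nonneg hlog
    have hll1 : Real.log (Real.log k) ≤ Real.log k := by
      apply Real.log_le_log (by linarith)
      have := Real.log_le_sub_one_of_pos hk0
      linarith
    have h1 : 0 ≤ q k ∧ q k < 1 := by
      simp only [hq]
      constructor
      · positivity
      · rw [div_lt_iff₀ hk0] at hk ⊢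
        linarith
    simp only [hp]
    rw [if_pos h1]

end Pool.Agent.Results.MP_816dee_pr.ChainOfCliques
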